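import Mathlib
import Pool.Agent.TH170.GS.Main
import Pool.Agent.Q29.EP.Rows
import Pool.Agent.Q29.DP.Deg

/-!
# Properties of the abelian varieties with slope types without relations
-/

set_option autoImplicit false

namespace Pool.Agent.U191.GSHalf

open NumberField Module Pool.Agent.H204R3.CM Pool.Agent.H977R3.CM Pool.Agent.TH170
  Pool.Agent.W495.TA Pool.Agent.Q29.EP

/-- A property that holds if all abelian varieties with the given slope types are isogenous to
products of supersingular ones and of powers of factors of such with elementary relations between the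
Frobenius eigenvalues holds for all families of types without relations. -/
theorem withoutRelations {Q : TypeProperty}
    (hQ : ∀ (p : ℕ) [hp : Fact p.Prime] (ν : PadicAlgCl p ≃+* ℂ) (I : Type) [hI : Fintype I]
      (K : I → Type) [hK : ∀ i, Field (K i)] [hN : ∀ i, NumberField (K i)]
      [hC : ∀ i, IsCMField (K i)] (M : ∀ i, (K i →+* ℂ) → ℤ) (Φ : ∀ i, Set (K i →+* ℂ)),
      (∀ Y : RedAV p ν, GS.OfTypes K M Φ Y → ∃ Z : RedAV p ν,
        TH117.BL.HasElementaryRelations Z ∧ TH117.BL.IsPowersTimesSupersingular Z Y) →
      Q p hp ν I hI K hK hN hC M Φ) : WithoutRelations Q := by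
  intro p _ ν I _ K _ _ _ M Φ hind hM hΦ hno
  exact hQ p ν I K M Φ fun Y hY => ⟨Y, GS.elementary_of_types hind hM hΦ
    (fun i => Pool.Agent.Q29.DP.notMem_degTypes_of_noRelations (hno i)) hY, fun k => Or.inr
    ⟨k, RingHom.id _, 1, 1, one_pos, one_pos, rfl, rfl⟩⟩

end Pool.Agent.U191.GSHalf
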