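import Mathlib
import Pool.Agent.U191.CMHalfDefs
import Pool.Agent.Q29.EP.Rows

/-!
# From CM types without relations to most of all CM types
-/

set_option autoImplicit false

namespace Pool.Agent.U191.CMHalf

open NumberField Module Finset Pool.Agent.H204R3.CM Pool.Agent.H977R3.CM Pool.Agent.Q29.DP
  Pool.Agent.Q29.OS
open Pool.Agent.Q29.EP (change PrimePowerDegree proportion isCMType_symmDiff)

/-- `Q` holds for all families of CM types without relations. -/
def WithoutRelations (Q : CMProperty) : Prop :=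
  ∀ (I : Type) [hI : Fintype I] (K : I → Type) [hK : ∀ i, Field (K i)]
    [hN : ∀ i, NumberField (K i)] [hC : ∀ i, IsCMField (K i)] (Φ : ∀ i, Set (K i →+* ℂ)),
    PairwiseIndep K → (∀ i, IsCMType (Φ i)) → (∀ i, NoRelations (fun _ => 1) (Φ i)) →
    Q I hI K hK hN hC Φ

variable {Q : CMProperty} (h : WithoutRelations Q)

include h

theorem mostOfAll : MostOfAll Q := by
  intro I _ K _ _ _ ℓ k hind hℓ hdeg h8
  refine le_trans ?_ (Nat.cast_le.2 (prod_le_fam (M := fun _ _ => 1) fun Φ hΦ hno =>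
    h I K Φ hind hΦ hno))
  rw [Nat.cast_prod]
  calc (∏ i, (1 - 1 / (ℓ i : ℝ))) * 2 ^ (∑ i, ℓ i ^ k i) =
      ∏ i, (1 - 1 / (ℓ i : ℝ)) * 2 ^ (ℓ i ^ k i) := by
        rw [prod_mul_distrib, prod_pow_eq_pow_sum]
    _ ≤ _ := by
      refine prod_le_prod (fun i _ => ?_) fun i _ => proportion (hℓ i) (hdeg i) (h8 i)
      have h1 : (1 : ℝ) ≤ ℓ i := by exact_mod_cast (hℓ i).one_lt.le
      have h2 : 1 / (ℓ i : ℝ) ≤ 1 := by
        rw [div_le_one (by linarith)]
        exact h1
      have h3 : (0 : ℝ) ≤ 1 - 1 / (ℓ i : ℝ) := by linarith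
      positivity

theorem oneOfTwo : OneOfTwo Q := by
  classical
  intro I _ K _ _ _ r k hind hr hdeg h8
  have hpp : ∀ i, PrimePowerDegree (fun _ : K i →+* ℂ => (1 : ℤ)) := by
    intro i
    have hne : Nonempty (K i →+* ℂ) := inferInstance
    refine ⟨r i, k i, hr i, hdeg i, ⟨hne.some, fun hd => ?_⟩, fun h2 => ⟨h8 i h2, fun _ => odd_one⟩⟩
    have h3 : (r i : ℤ) ≤ 1 := Int.le_of_dvd one_pos hd
    have h4 := (hr i).two_le
    omega
  choose B hB hmain using fun i =>
    Pool.Agent.Q29.EP.exists_change (E := K i) (M := fun _ => 1) (fun _ => rfl) (hpp i)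
  refine ⟨B, hB, fun Φ hΦ => ⟨{i | ¬ NoRelations (fun _ => 1) (Φ i)}, ?_⟩⟩
  refine h I K _ hind (fun i => ?_) fun i => ?_
  · unfold change
    split_ifs
    · exact isCMType_symmDiff (hB i) (hΦ i)
    · exact hΦ i
  · unfold change
    split_ifs with h1
    · exact (hmain i (Φ i) (hΦ i)).resolve_left h1
    · exact not_not.1 h1

theorem sixteenPercent : SixteenPercent Q := by
  obtain ⟨g₀, h1⟩ := fam_abelian
  refine ⟨g₀, ?_⟩
  intro I _ K _ _ _ g hind hab hg0 hg
  have : ∀ i, IsGalois ℚ (K i) := fun i => (hab i).1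
  exact h1 I K (fun _ _ => 1) g _ (fun i => (hab i).2) (fun _ _ => odd_one) (fun _ _ => rfl)
    hg0 hg fun Φ hΦ hno => h I K Φ hind hΦ hno

end Pool.Agent.U191.CMHalf
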