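import Mathlib
import Pool.Agent.TH170.FT.Neat
import Pool.Agent.Q29.EP.Rows
import Pool.Agent.Q29.DP.Deg

/-!
# Properties of the abelian varieties with a Frobenius element of a slope type without relations
-/

set_option autoImplicit false

namespace Pool.Agent.U191.FTHalf

open NumberField Module Pool.Agent.H204R3.CM Pool.Agent.H977R3.CM Pool.Agent.TH170
  Pool.Agent.TH170.FW Pool.Agent.Q29.EP

/-- A property that holds for all families of types that are not degenerate holds for all families
of types without relations. -/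
theorem withoutRelations {Q : TypeProperty}
    (hQ : ∀ (p : ℕ) [hp : Fact p.Prime] (ν : PadicAlgCl p ≃+* ℂ) (I : Type) [hI : Fintype I]
      (K : I → Type) [hK : ∀ i, Field (K i)] [hN : ∀ i, NumberField (K i)]
      [hC : ∀ i, IsCMField (K i)] (M : ∀ i, (K i →+* ℂ) → ℤ) (Φ : ∀ i, Set (K i →+* ℂ)),
      PairwiseIndep K → (∀ i φ, M i (ComplexEmbedding.conjugate φ) = M i φ) →
      (∀ i, IsCMType (Φ i)) → (∀ i, Φ i ∉ degTypes (M i)) →
      Q p hp ν I hI K hK hN hC M Φ) : WithoutRelations Q := by
  intro p _ ν I _ K _ _ _ M Φ hind hM hΦ hno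
  exact hQ p ν I K M Φ hind hM hΦ
    fun i => Pool.Agent.Q29.DP.notMem_degTypes_of_noRelations (hno i)

end Pool.Agent.U191.FTHalf
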